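import Mathlib
import Pool.Agent.H76R3.LBInst
import Pool.Agent.H76R3.JTConf
import Pool.Agent.H76R3.KL
import Pool.Agent.H76R3.SRFinal
import Pool.Agent.H76R3.UCDual

set_option autoImplicit false

open Topology Filter Set
open scoped ENNReal NNReal

namespace Pool.Agent.Results.MP_f896b9_an.ExactValues

/-! ### Distortion -/

/-- The Lipschitz constant `Lip(f)` of `f : M → Y`, in `[0, ∞]`. -/
noncomputable def lip {M : Type} {Y : Type*} [MetricSpace M] [MetricSpace Y] (f : M → Y) : ℝ≥0∞ :=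
  ⨅ (K : ℝ≥0) (_ : LipschitzWith K f), (K : ℝ≥0∞)

/-- The Lipschitz constant `Lip(f⁻¹)` of the inverse `f(M) → M` of an injection `f : M → Y`,
in `[0, ∞]` : the infimum of the `K` with `dist x y ≤ K * dist (f x) (f y)` for all `x, y`. -/
noncomputable def lipInv {M : Type} {Y : Type*} [MetricSpace M] [MetricSpace Y] (f : M → Y) : ℝ≥0∞ :=
  ⨅ (K : ℝ≥0) (_ : AntilipschitzWith K f), (K : ℝ≥0∞)

/-- `c_Y(M)`, the infimum of the distortions `Lip(f) Lip(f⁻¹)` of the injections `f : M → Y`. -/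
noncomputable def cDist (Y : Type*) (M : Type) [MetricSpace Y] [MetricSpace M] : ℝ≥0∞ :=
  ⨅ (f : M → Y) (_ : Function.Injective f), lip f * lipInv f

/-- `c_Y(𝒞)` for a class `𝒞` of real Banach spaces: the supremum of `c_Y(X)`, `X ∈ 𝒞`. -/
noncomputable def cClass (Y : Type*) [MetricSpace Y]
    (𝒞 : (X : Type) → [NormedAddCommGroup X] → [NormedSpace ℝ X] → Prop) : ℝ≥0∞ :=
  ⨆ (X : Type) (_ : NormedAddCommGroup X) (_ : NormedSpace ℝ X) (_ : 𝒞 X), cDist Y X

/-! ### The three classes -/

/-- The quadratic Rademacher average `(𝔼 ‖∑ i, ε i • x i‖ ^ 2) ^ (1/2)`, the mean being over all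
choices of signs (`true` is `+`, `false` is `-`). -/
noncomputable def radAvg {X : Type} [NormedAddCommGroup X] {n : ℕ} (x : Fin n → X) : ℝ :=
  √((∑ ε : Fin n → Bool, ‖∑ i, if ε i then x i else - x i‖ ^ 2) / 2 ^ n)

/-- `X` has Rademacher type `p`. -/
def HasType (X : Type) [NormedAddCommGroup X] (p : ℝ) : Prop :=
  ∃ C : ℝ, ∀ (n : ℕ) (x : Fin n → X), radAvg x ≤ C * (∑ i, ‖x i‖ ^ p) ^ (1 / p)

/-- `X` has Rademacher cotype `q`. -/
def HasCotype (X : Type) [NormedAddCommGroup X] (q : ℝ) : Prop :=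
  ∃ C : ℝ, ∀ (n : ℕ) (x : Fin n → X), (∑ i, ‖x i‖ ^ q) ^ (1 / q) ≤ C * radAvg x

/-- The class of separable Banach spaces with nontrivial type. -/
def TYP (X : Type) [NormedAddCommGroup X] [NormedSpace ℝ X] : Prop :=
  CompleteSpace X ∧ TopologicalSpace.SeparableSpace X ∧ ∃ p : ℝ, 1 < p ∧ p ≤ 2 ∧ HasType X p

/-- The class of separable Banach spaces with nontrivial cotype. -/
def COT (X : Type) [NormedAddCommGroup X] [NormedSpace ℝ X] : Prop :=
  CompleteSpace X ∧ TopologicalSpace.SeparableSpace X ∧ ∃ q : ℝ, 2 ≤ q ∧ HasCotype X q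

/-- The class of separable superreflexive Banach spaces, that is, of the separable Banach spaces
which are linearly isomorphic to a uniformly convex Banach space. -/
def SR (X : Type) [NormedAddCommGroup X] [NormedSpace ℝ X] : Prop :=
  CompleteSpace X ∧ TopologicalSpace.SeparableSpace X ∧
    ∃ (Y : Type) (_ : NormedAddCommGroup Y) (_ : NormedSpace ℝ Y) (_ : UniformConvexSpace Y),
      Nonempty (X ≃L[ℝ] Y)

/-! ### `C([0, κ])` -/

section transfer

variable {κ : Ordinal.{0}}

/-- the obvious homeomorphisms -/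
def toIcc : C(Set.Iic κ, Set.Icc (0 : Ordinal.{0}) κ) :=
  ⟨fun t => ⟨t.1, zero_le, t.2⟩, by fun_prop⟩

def toIic : C(Set.Icc (0 : Ordinal.{0}) κ, Set.Iic κ) :=
  ⟨fun t => ⟨t.1, t.2.2⟩, by fun_prop⟩

noncomputable def toBCF (g : C(Set.Icc (0 : Ordinal.{0}) κ, ℝ)) :
    BoundedContinuousFunction (Set.Iic κ) ℝ :=
  (BoundedContinuousFunction.mkOfCompact g).compContinuous toIcc

noncomputable def ofBCF (g : BoundedContinuousFunction (Set.Iic κ) ℝ) :
    C(Set.Icc (0 : Ordinal.{0}) κ, ℝ) :=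
  g.toContinuousMap.comp toIic

lemma dist_toBCF (g h : C(Set.Icc (0 : Ordinal.{0}) κ, ℝ)) :
    dist (toBCF g) (toBCF h) = dist g h := by
  apply le_antisymm
  · rw [BoundedContinuousFunction.dist_le dist_nonneg]
    intro t
    exact ContinuousMap.dist_apply_le_dist (f := g) (g := h) (toIcc t)
  · rw [ContinuousMap.dist_le dist_nonneg]
    intro t
    exact BoundedContinuousFunction.dist_coe_le_dist (f := toBCF g) (g := toBCF h) (toIic t)

lemma dist_ofBCF (g h : BoundedContinuousFunction (Set.Iic κ) ℝ) :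
    dist (ofBCF g) (ofBCF h) = dist g h := by
  apply le_antisymm
  · rw [ContinuousMap.dist_le dist_nonneg]
    intro t
    exact BoundedContinuousFunction.dist_coe_le_dist (f := g) (g := h) (toIic t)
  · rw [BoundedContinuousFunction.dist_le dist_nonneg]
    intro t
    exact ContinuousMap.dist_apply_le_dist (f := ofBCF g) (g := ofBCF h) (toIcc t)

end transfer

/-! ### General facts on the distortion -/

section general

variable {M : Type} {Y : Type*} [MetricSpace M] [MetricSpace Y]

lemma edist_le_lip (f : M → Y) (x y : M) : edist (f x) (f y) ≤ lip f * edist x y := by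
  by_cases hxy : x = y
  · subst hxy
    simp
  have h0 : edist x y ≠ 0 := fun h => hxy (edist_eq_zero.1 h)
  have h1 : edist x y ≠ ⊤ := edist_ne_top x y
  unfold lip
  rw [ENNReal.iInf_mul_of_ne h0 h1]
  refine le_iInf fun K => ?_
  by_cases hK : LipschitzWith K f
  · rw [ciInf_pos hK]
    exact hK x y
  · rw [iInf_neg hK, ENNReal.top_mul h0]
    exact le_top

lemma edist_le_lipInv (f : M → Y) (hf : Function.Injective f) (x y : M) :
    edist x y ≤ lipInv f * edist (f x) (f y) := by
  by_cases hxy : x = y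
  · subst hxy
    simp
  have h0 : edist (f x) (f y) ≠ 0 := fun h => hxy (hf (edist_eq_zero.1 h))
  have h1 : edist (f x) (f y) ≠ ⊤ := edist_ne_top _ _
  unfold lipInv
  rw [ENNReal.iInf_mul_of_ne h0 h1]
  refine le_iInf fun K => ?_
  by_cases hK : AntilipschitzWith K f
  · rw [ciInf_pos hK]
    exact hK x y
  · rw [iInf_neg hK, ENNReal.top_mul h0]
    exact le_top

/-- lower bounds on `c_Y(M)` from lower bounds on `A * B` -/
lemma le_cDist [Nontrivial M] (c : ℝ) (hc : ∀ (f : M → Y) (A B : ℝ),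
    (∀ x y, dist (f x) (f y) ≤ A * dist x y) → (∀ x y, dist x y ≤ B * dist (f x) (f y)) →
    c ≤ A * B) : ENNReal.ofReal c ≤ cDist Y M := by
  unfold cDist
  refine le_iInf fun f => le_iInf fun hf => ?_
  obtain ⟨a, b, hab⟩ := exists_pair_ne M
  have hlip : lip f ≠ 0 := by
    intro h
    have h1 := edist_le_lip f a b
    rw [h, zero_mul, nonpos_iff_eq_zero, edist_eq_zero] at h1
    exact hab (hf h1)
  have hinv : lipInv f ≠ 0 := by
    intro h
    have h1 := edist_le_lipInv f hf a b
    rw [h, zero_mul, nonpos_iff_eq_zero, edist_eq_zero] at h1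
    exact hab h1
  by_cases h1 : lip f = ⊤
  · rw [h1, ENNReal.top_mul hinv]
    exact le_top
  by_cases h2 : lipInv f = ⊤
  · rw [h2, ENNReal.mul_top hlip]
    exact le_top
  have hA : ∀ x y, dist (f x) (f y) ≤ (lip f).toReal * dist x y := by
    intro x y
    have := ENNReal.toReal_mono (ENNReal.mul_ne_top h1 (edist_ne_top x y)) (edist_le_lip f x y)
    rwa [ENNReal.toReal_mul, edist_dist, edist_dist, ENNReal.toReal_ofReal dist_nonneg,
      ENNReal.toReal_ofReal dist_nonneg] at this
  have hB : ∀ x y, dist x y ≤ (lipInv f).toReal * dist (f x) (f y) := by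
    intro x y
    have := ENNReal.toReal_mono (ENNReal.mul_ne_top h2 (edist_ne_top (f x) (f y)))
      (edist_le_lipInv f hf x y)
    rwa [ENNReal.toReal_mul, edist_dist, edist_dist, ENNReal.toReal_ofReal dist_nonneg,
      ENNReal.toReal_ofReal dist_nonneg] at this
  have h3 := hc f _ _ hA hB
  rw [← ENNReal.toReal_mul] at h3
  exact ENNReal.ofReal_le_of_le_toReal h3

/-- upper bounds on `c_Y(M)` from embeddings -/
lemma cDist_le (c : ℝ) (hc : 0 < c) (f : M → Y) (h1 : ∀ x y, dist (f x) (f y) ≤ dist x y)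
    (h2 : ∀ x y, c * dist x y ≤ dist (f x) (f y)) : cDist Y M ≤ ENNReal.ofReal (1 / c) := by
  have hinj : Function.Injective f := by
    intro x y hxy
    have h3 := h2 x y
    rw [hxy, dist_self] at h3
    have : dist x y ≤ 0 := by
      by_contra h4
      push Not at h4
      have := mul_pos hc h4
      linarith
    exact dist_le_zero.1 this
  have hL : LipschitzWith 1 f := by
    apply LipschitzWith.of_dist_le_mul
    intro x y
    simpa using h1 x y
  have hAL : AntilipschitzWith (Real.toNNReal (1 / c)) f := by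
    apply AntilipschitzWith.of_le_mul_dist
    intro x y
    rw [Real.coe_toNNReal _ (by positivity), one_div, ← div_eq_inv_mul, le_div_iff₀ hc]
    linarith [h2 x y]
  calc cDist Y M ≤ lip f * lipInv f := by
        unfold cDist
        exact iInf₂_le f hinj
    _ ≤ 1 * ENNReal.ofReal (1 / c) := by
        have e1 : lip f ≤ ((1 : ℝ≥0) : ℝ≥0∞) := by
          unfold lip
          exact iInf₂_le (1 : ℝ≥0) hL
        have e2 : lipInv f ≤ ((Real.toNNReal (1 / c) : ℝ≥0) : ℝ≥0∞) := by
          unfold lipInv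
          exact iInf₂_le (Real.toNNReal (1 / c)) hAL
        exact mul_le_mul' e1 e2
    _ = _ := one_mul _

end general

/-! ### The three types of examples -/

lemma separable_lp {p : ℝ≥0∞} [Fact (1 ≤ p)] (hp : p ≠ ⊤) :
    TopologicalSpace.SeparableSpace (lp (fun _ : ℕ => ℝ) p) := by
  rw [← TopologicalSpace.isSeparable_univ_iff]
  have h1 : TopologicalSpace.IsSeparable
      (Set.range (fun i : ℕ => lp.single (E := fun _ : ℕ => ℝ) p i (1 : ℝ))) :=
    (Set.countable_range _).isSeparable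
  have h2 := (h1.span (R := ℝ)).closure
  refine h2.mono ?_
  intro x _
  have hx := lp.hasSum_single hp x
  refine mem_closure_of_tendsto hx (Eventually.of_forall fun s => ?_)
  refine Submodule.sum_mem _ fun i _ => ?_
  have : lp.single p i (x i) = (x i) • lp.single (E := fun _ : ℕ => ℝ) p i (1 : ℝ) := by
    rw [← lp.single_smul]
    simp
  rw [this]
  exact Submodule.smul_mem _ _ (Submodule.subset_span ⟨i, rfl⟩)

lemma separable_of_equiv {X Y : Type} [NormedAddCommGroup X] [NormedSpace ℝ X]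
    [NormedAddCommGroup Y] [NormedSpace ℝ Y] (e : X ≃L[ℝ] Y)
    [TopologicalSpace.SeparableSpace X] : TopologicalSpace.SeparableSpace Y :=
  e.surjective.denseRange.separableSpace e.continuous

lemma hasType_iff (X : Type) [NormedAddCommGroup X] (p : ℝ) :
    HasType X p ↔ Pool.Agent.H76R3.TC.HasType X p := Iff.rfl

lemma hasCotype_iff (X : Type) [NormedAddCommGroup X] (p : ℝ) :
    HasCotype X p ↔ Pool.Agent.H76R3.TC.HasCotype X p := Iff.rfl

/-- the Banach space `C([0, ω ^ α])` -/
abbrev COrd (α : Ordinal.{0}) : Type 1 := C(Set.Icc (0 : Ordinal.{0}) (Ordinal.omega0 ^ α), ℝ)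

lemma upper_two (α : Ordinal.{0}) (hα : 1 ≤ α) (X : Type) [NormedAddCommGroup X]
    [NormedSpace ℝ X] [TopologicalSpace.SeparableSpace X] : cDist (COrd α) X ≤ 2 := by
  have hω : Ordinal.omega0.{0} ≤ Ordinal.omega0 ^ α := by
    calc Ordinal.omega0.{0} = Ordinal.omega0 ^ (1 : Ordinal.{0}) := (Ordinal.opow_one _).symm
      _ ≤ _ := Ordinal.opow_le_opow_right Ordinal.omega0_pos hα
  refine ENNReal.le_of_forall_pos_le_add fun δ hδ _ => ?_
  -- choose κ0 with 1 / (1/2 - κ0) ≤ 2 + δ
  set c : ℝ := 1 / (2 + δ) with hc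
  have hδ' : (0:ℝ) < δ := hδ
  have hcpos : 0 < c := by positivity
  have hc2 : c < 1 / 2 := by
    rw [hc]
    apply one_div_lt_one_div_of_lt (by norm_num)
    linarith
  obtain ⟨f, h1, h2⟩ := Pool.Agent.H76R3.KL.kl X (1 / 2 - c) (by linarith)
    (Ordinal.omega0 ^ α) hω
  have h3 := cDist_le (Y := COrd α) c hcpos (fun x => ofBCF (f x))
    (fun x y => by rw [dist_ofBCF]; exact h1 x y)
    (fun x y => by
      rw [dist_ofBCF]
      have := h2 x y
      rwa [sub_sub_cancel] at this)
  refine h3.trans ?_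
  rw [hc, one_div_one_div, ENNReal.ofReal_add (by norm_num) hδ'.le]
  simp

/-- lower bound for the class constant from one member -/
lemma le_cClass {Y : Type*} [MetricSpace Y]
    {𝒞 : (X : Type) → [NormedAddCommGroup X] → [NormedSpace ℝ X] → Prop}
    (X : Type) [NormedAddCommGroup X] [NormedSpace ℝ X] (hX : 𝒞 X) :
    cDist Y X ≤ cClass Y 𝒞 := by
  unfold cClass
  refine le_iSup_of_le X ?_
  refine le_iSup_of_le inferInstance ?_
  refine le_iSup_of_le inferInstance ?_
  exact le_iSup_of_le hX le_rfl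

lemma cClass_le {Y : Type*} [MetricSpace Y]
    {𝒞 : (X : Type) → [NormedAddCommGroup X] → [NormedSpace ℝ X] → Prop} (c : ℝ≥0∞)
    (h : ∀ (X : Type) [NormedAddCommGroup X] [NormedSpace ℝ X], 𝒞 X → cDist Y X ≤ c) :
    cClass Y 𝒞 ≤ c := by
  unfold cClass
  refine iSup_le fun X => iSup_le fun i1 => iSup_le fun i2 => iSup_le fun hX => ?_
  exact h X hX

lemma nontrivial_of_conf {Y : Type} [MetricSpace Y] {P : List ℕ → Prop} {x y z : List ℕ → Y}
    (h : Pool.Agent.H76R3.LB.Conf P x y z) (hP : ∃ v, P v) : Nontrivial Y := by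
  obtain ⟨v, hv⟩ := hP
  refine ⟨⟨x v, y v, fun he => ?_⟩⟩
  have h1 := h.hxy v hv
  rw [he, dist_self] at h1
  linarith

lemma lower_all {X : Type} [NormedAddCommGroup X] [NormedSpace ℝ X] {x y z : List ℕ → X}
    (h : Pool.Agent.H76R3.LB.Conf (fun _ => True) x y z) (α : Ordinal.{0}) :
    2 ≤ cDist (COrd α) X := by
  have : Nontrivial X := nontrivial_of_conf h ⟨[], trivial⟩
  have h2 : ENNReal.ofReal 2 ≤ cDist (COrd α) X := by
    refine le_cDist 2 fun f A B hA hB => ?_
    exact Pool.Agent.H76R3.LB.lb_all (Ordinal.omega0 ^ α) h (fun p => toBCF (f p)) A B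
      (fun p q => by rw [dist_toBCF]; exact hA p q) (fun p q => by rw [dist_toBCF]; exact hB p q)
  simpa using h2

lemma lower_finite {X : Type} [NormedAddCommGroup X] [NormedSpace ℝ X] {x y z : List ℕ → X}
    (k : ℕ) (h : Pool.Agent.H76R3.LB.Conf (fun v => v.length = 2 * (k + 1)) x y z) :
    2 ≤ cDist (COrd (k : Ordinal.{0})) X := by
  have : Nontrivial X := nontrivial_of_conf h ⟨List.replicate (2 * (k + 1)) 0, by simp⟩
  have h2 : ENNReal.ofReal 2 ≤ cDist (COrd (k : Ordinal.{0})) X := by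
    refine le_cDist 2 fun f A B hA hB => ?_
    have key : ∀ κ : Ordinal.{0}, κ = Ordinal.omega0 ^ (k : Ordinal.{0}) →
        ∀ g : X → BoundedContinuousFunction (Set.Iic κ) ℝ,
        (∀ p q, dist (g p) (g q) ≤ A * dist p q) → (∀ p q, dist p q ≤ B * dist (g p) (g q)) →
        2 ≤ A * B := by
      intro κ hκ
      rw [Ordinal.opow_natCast] at hκ
      subst hκ
      intro g h1 h2
      exact Pool.Agent.H76R3.LB.lb_finite k h g A B h1 h2
    exact key _ rfl (fun p => toBCF (f p))
      (fun p q => by rw [dist_toBCF]; exact hA p q) (fun p q => by rw [dist_toBCF]; exact hB p q)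
  simpa using h2

lemma typ_eq (α : Ordinal.{0}) (hα : 1 ≤ α) : cClass (COrd α) TYP = 2 := by
  apply le_antisymm
  · refine cClass_le 2 fun X _ _ hX => ?_
    have := hX.2.1
    exact upper_two α hα X
  · obtain ⟨Y, i1, i2, i3, i4, hT, x, y, z, hC⟩ := Pool.Agent.H76R3.JT.exists_type
    exact (lower_all hC α).trans (le_cClass Y ⟨i3, i4, 32 / 31, by norm_num, by norm_num, hT⟩)

lemma cot_eq (α : Ordinal.{0}) (hα : 1 ≤ α) : cClass (COrd α) COT = 2 := by
  apply le_antisymm
  · refine cClass_le 2 fun X _ _ hX => ?_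
    have := hX.2.1
    exact upper_two α hα X
  · obtain ⟨Y, i1, i2, i3, e, x, y, z, hC⟩ := Pool.Agent.H76R3.LB.exists_l1
    have h1 := separable_lp (p := 1) (by norm_num)
    have h2 := separable_of_equiv e
    refine (lower_all hC α).trans (le_cClass Y ⟨i3, h2, 2, le_rfl, ?_⟩)
    exact Pool.Agent.H76R3.TC.hasCotype_l1.transfer e (by norm_num)

lemma sr_two (α : Ordinal.{0}) (hα : 1 ≤ α) (hα' : α < Ordinal.omega0) :
    cClass (COrd α) SR = 2 := by
  apply le_antisymm
  · refine cClass_le 2 fun X _ _ hX => ?_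
    have := hX.2.1
    exact upper_two α hα X
  · obtain ⟨k, rfl⟩ := Ordinal.lt_omega0.1 hα'
    obtain ⟨Y, i1, i2, i3, e, x, y, z, hC⟩ := Pool.Agent.H76R3.LB.exists_l2 (2 * (k + 1))
    have h1 := separable_lp (p := 2) (by norm_num)
    have h2 := separable_of_equiv e
    exact (lower_finite k hC).trans (le_cClass Y ⟨i3, h2, _, inferInstance, inferInstance,
      inferInstance, ⟨e.symm⟩⟩)

lemma one_le_cDist {M : Type} {Y : Type*} [MetricSpace M] [MetricSpace Y] [Nontrivial M] :
    1 ≤ cDist Y M := by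
  have h2 : ENNReal.ofReal 1 ≤ cDist Y M := by
    refine le_cDist 1 fun f A B hA hB => ?_
    obtain ⟨a, b, hab⟩ := exists_pair_ne M
    have hd : 0 < dist a b := dist_pos.2 hab
    have h1 := hA a b
    have h2 := hB a b
    have hB0 : 0 < B := by
      by_contra hneg
      rw [not_lt] at hneg
      have : B * dist (f a) (f b) ≤ 0 := mul_nonpos_of_nonpos_of_nonneg hneg dist_nonneg
      linarith
    have h3 : dist a b ≤ B * (A * dist a b) := h2.trans (by gcongr)
    have h4 : 1 * dist a b ≤ (A * B) * dist a b := by linarith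
    exact le_of_mul_le_mul_right h4 hd
  simpa using h2

lemma sr_one (α : Ordinal.{0}) (hα : Ordinal.omega0 ≤ α) : cClass (COrd α) SR = 1 := by
  apply le_antisymm
  · refine cClass_le 1 fun X _ _ hX => ?_
    obtain ⟨i1, i2, Y, j1, j2, j3, ⟨e⟩⟩ := hX
    have hω : (Ordinal.omega0.{0}) ^ Ordinal.omega0.{0} ≤ Ordinal.omega0 ^ α :=
      Ordinal.opow_le_opow_right Ordinal.omega0_pos hα
    refine ENNReal.le_of_forall_pos_le_add fun δ hδ _ => ?_
    set c : ℝ := 1 / (1 + δ) with hc
    have hδ' : (0:ℝ) < δ := hδ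
    have hcpos : 0 < c := by positivity
    have hc2 : c < 1 := by
      rw [hc, div_lt_one (by positivity)]
      linarith
    obtain ⟨f, h1, h2⟩ := Pool.Agent.H76R3.SR.sr_embed X
      (fun s hs => Pool.Agent.H76R3.SR.exists_pot' Y e s hs) (Ordinal.omega0 ^ α) hω (1 - c)
      (by linarith) (by linarith)
    have h3 := cDist_le (Y := COrd α) c hcpos (fun x => ofBCF (f x))
      (fun x y => by rw [dist_ofBCF]; exact h1 x y)
      (fun x y => by
        rw [dist_ofBCF]
        have := h2 x y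
        rwa [sub_sub_cancel] at this)
    refine h3.trans ?_
    rw [hc, one_div_one_div, ENNReal.ofReal_add (by norm_num) hδ'.le]
    simp
  · refine (one_le_cDist (M := ℝ)).trans (le_cClass ℝ ⟨inferInstance, inferInstance, ℝ,
      inferInstance, inferInstance, inferInstance, ⟨ContinuousLinearEquiv.refl ℝ ℝ⟩⟩)

/-- **The exact values.**  For every ordinal `α ≥ 1` (in particular for every countable ordinal
`α ≥ 2`) the constants of `TYP` and of `COT` in `C([0, ω ^ α])` are both `2`, and that of `SR` is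
`2` for finite `α` and `1` for infinite `α`. -/
theorem result (α : Ordinal.{0}) (hα : 1 ≤ α) :
    cClass C(Set.Icc (0 : Ordinal.{0}) (Ordinal.omega0 ^ α), ℝ) TYP = 2 ∧
    cClass C(Set.Icc (0 : Ordinal.{0}) (Ordinal.omega0 ^ α), ℝ) COT = 2 ∧
    (α < Ordinal.omega0 →
      cClass C(Set.Icc (0 : Ordinal.{0}) (Ordinal.omega0 ^ α), ℝ) SR = 2) ∧
    (Ordinal.omega0 ≤ α →
      cClass C(Set.Icc (0 : Ordinal.{0}) (Ordinal.omega0 ^ α), ℝ) SR = 1) :=
  ⟨typ_eq α hα, cot_eq α hα, sr_two α hα, sr_one α⟩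

end Pool.Agent.Results.MP_f896b9_an.ExactValues
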